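import Mathlib

/-!
# Finite `p`-groups without `(Z/p)²`, `p` odd, are cyclic
-/

set_option autoImplicit false

namespace Pool.Agent.H89.CF

/-- there is no subgroup `(Z/p)²` -/
def NoRankTwo (p : ℕ) (G : Type) [Group G] : Prop :=
  ∀ x y : G, x ^ p = 1 → y ^ p = 1 → x * y = y * x →
    ∃ i j : ℕ, ¬ (p ∣ i ∧ p ∣ j) ∧ x ^ i * y ^ j = 1

theorem NoRankTwo.subgroup {p : ℕ} {G : Type} [Group G] (h : NoRankTwo p G) (H : Subgroup G) :
    NoRankTwo p H := by
  intro x y hx hy hxy
  obtain ⟨i, j, hij, hh⟩ := h x y
    (by have := congrArg (fun z : H => (z : G)) hx; simpa using this)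
    (by have := congrArg (fun z : H => (z : G)) hy; simpa using this)
    (by have := congrArg (fun z : H => (z : G)) hxy; simpa using this)
  exact ⟨i, j, hij, Subtype.ext (by simpa using hh)⟩

/-- powers in a group of class two: `c` central, `y x = x y c` -/
theorem pow_mul_comm {G : Type} [Group G] {x y c : G} (hc : ∀ g : G, c * g = g * c)
    (h : y * x = x * y * c) (n : ℕ) : y ^ n * x = x * y ^ n * c ^ n := by
  have hcn : ∀ n : ℕ, ∀ g : G, c ^ n * g = g * c ^ n := fun n g =>
    ((show Commute c g from hc g).pow_left n).eq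
  induction n with
  | zero => simp
  | succ n ih =>
    calc y ^ (n + 1) * x = y * (y ^ n * x) := by rw [pow_succ']; group
      _ = y * (x * y ^ n * c ^ n) := by rw [ih]
      _ = (y * x) * y ^ n * c ^ n := by group
      _ = x * y * c * y ^ n * c ^ n := by rw [h]
      _ = x * y * (c * y ^ n) * c ^ n := by group
      _ = x * y * (y ^ n * c) * c ^ n := by rw [hc]
      _ = x * y ^ (n + 1) * c ^ (n + 1) := by rw [pow_succ' y, pow_succ' c]; group

theorem mul_pow_class_two {G : Type} [Group G] {x y c : G} (hc : ∀ g : G, c * g = g * c)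
    (h : y * x = x * y * c) (n : ℕ) : (x * y) ^ n = x ^ n * y ^ n * c ^ (n * (n - 1) / 2) := by
  have hcn : ∀ n : ℕ, ∀ g : G, c ^ n * g = g * c ^ n := fun n g =>
    ((show Commute c g from hc g).pow_left n).eq
  induction n with
  | zero => simp
  | succ n ih =>
    have e : (n + 1) * (n + 1 - 1) / 2 = n * (n - 1) / 2 + n := by
      rcases n with _ | n
      · rfl
      · have : (n + 1 + 1) * (n + 1 + 1 - 1) = (n + 1) * (n + 1 - 1) + (n + 1) * 2 := by
          simp only [Nat.add_sub_cancel]; ring
        rw [this, Nat.add_mul_div_right _ _ (by norm_num)]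
    rw [e]
    calc (x * y) ^ (n + 1) = (x * y) ^ n * (x * y) := pow_succ _ _
      _ = x ^ n * y ^ n * c ^ (n * (n - 1) / 2) * (x * y) := by rw [ih]
      _ = x ^ n * y ^ n * (c ^ (n * (n - 1) / 2) * (x * y)) := by group
      _ = x ^ n * y ^ n * ((x * y) * c ^ (n * (n - 1) / 2)) := by rw [hcn]
      _ = x ^ n * (y ^ n * x) * y * c ^ (n * (n - 1) / 2) := by group
      _ = x ^ n * (x * y ^ n * c ^ n) * y * c ^ (n * (n - 1) / 2) := by
          rw [pow_mul_comm hc h]
      _ = x ^ n * x * y ^ n * (c ^ n * y) * c ^ (n * (n - 1) / 2) := by group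
      _ = x ^ n * x * y ^ n * (y * c ^ n) * c ^ (n * (n - 1) / 2) := by rw [hcn]
      _ = x ^ (n + 1) * y ^ (n + 1) * c ^ (n * (n - 1) / 2 + n) := by
          rw [pow_succ x, pow_succ y, pow_add, ← hcn n (c ^ (n * (n - 1) / 2))]; group

/-- A finite `p`-group (`p` odd) without `(Z/p)²` is cyclic. -/
theorem isCyclic_of_noRankTwo {p : ℕ} [hpf : Fact p.Prime] (hp2 : p ≠ 2) :
    ∀ (n : ℕ) (G : Type) [Group G] [Finite G], Nat.card G = p ^ n → NoRankTwo p G →
      IsCyclic G := by
  have hpp : p.Prime := hpf.out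
  intro n
  induction n using Nat.strong_induction_on with
  | _ n ih =>
    intro G _ _ hcard hr
    by_contra hnc
    have hn2 : 2 ≤ n := by
      by_contra hlt
      have : n = 0 ∨ n = 1 := by omega
      rcases this with rfl | rfl
      · rw [pow_zero] at hcard
        have := (Nat.card_eq_one_iff_unique.1 hcard).1
        exact hnc isCyclic_of_subsingleton
      · rw [pow_one] at hcard
        exact hnc (isCyclic_of_prime_card hcard)
    obtain ⟨k, rfl⟩ : ∃ k, n = k + 2 := ⟨n - 2, by omega⟩
    -- subgroups of order p^(k+1) are normal of index p and cyclic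
    have hmax : ∀ M : Subgroup G, Nat.card M = p ^ (k + 1) →
        M.index = p ∧ M.Normal ∧ IsCyclic M := by
      intro M hM
      have hidx : M.index = p := by
        have h1 := M.card_mul_index
        rw [hM, hcard, show k + 2 = (k + 1) + 1 from rfl, pow_succ p (k + 1)] at h1
        exact Nat.eq_of_mul_eq_mul_left (pow_pos hpp.pos _) h1
      refine ⟨hidx, ?_, ?_⟩
      · apply Subgroup.normal_of_index_eq_minFac_card
        rw [hidx, hcard, hpp.pow_minFac (by omega)]
      · exact ih (k + 1) (by omega) M hM (hr.subgroup M)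
    obtain ⟨M, hM⟩ := Sylow.exists_subgroup_card_pow_prime (G := G) p (n := k + 1)
      (by rw [hcard]; exact pow_dvd_pow p (by omega))
    obtain ⟨hMi, hMn, hMc⟩ := hmax M hM
    obtain ⟨x, hx⟩ : ∃ x : G, x ∉ M := by
      by_contra hcon
      push Not at hcon
      have : M = ⊤ := (Subgroup.eq_top_iff' M).2 hcon
      rw [this, Subgroup.card_top, hcard] at hM
      have := Nat.pow_right_injective hpp.two_le hM
      omega
    -- a second one
    obtain ⟨M', hM', hxM'⟩ : ∃ M' : Subgroup G, Nat.card M' = p ^ (k + 1) ∧ x ∈ M' := by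
      obtain ⟨a, ha, hcz⟩ := (Nat.dvd_prime_pow hpp).1
        (hcard ▸ Subgroup.card_subgroup_dvd_card (Subgroup.zpowers x))
      have hak : a ≤ k + 1 := by
        by_contra hlt
        have ha2 : a = k + 2 := by omega
        rw [ha2, ← hcard] at hcz
        have : Subgroup.zpowers x = ⊤ := Subgroup.eq_top_of_card_eq _ hcz
        exact hnc ⟨x, fun g => by
          have h1 : g ∈ Subgroup.zpowers x := by rw [this]; trivial
          exact h1⟩
      obtain ⟨M', h1, h2⟩ := Sylow.exists_subgroup_card_pow_prime_le (G := G) p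
        (m := k + 1) (by rw [hcard]; exact pow_dvd_pow p (by omega)) (Subgroup.zpowers x) hcz hak
      exact ⟨M', h1, h2 (Subgroup.mem_zpowers x)⟩
    obtain ⟨hMi', hMn', hMc'⟩ := hmax M' hM'
    have hne : M ≠ M' := fun h => hx (h ▸ hxM')
    have htop : M ⊔ M' = ⊤ := by
      have h1 : (M ⊔ M').index ∣ p := by
        rw [← hMi]; exact Subgroup.index_dvd_of_le le_sup_left
      rcases (Nat.dvd_prime hpp).1 h1 with h2 | h2
      · exact Subgroup.index_eq_one.1 h2
      · exfalso
        have hfin : (M ⊔ M').FiniteIndex := inferInstance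
        have h3 : M = M ⊔ M' := by
          apply Subgroup.eq_of_le_of_card_ge le_sup_left
          have h4 := M.card_mul_index
          have h5 := (M ⊔ M').card_mul_index
          rw [hMi, ← h5, h2] at h4
          exact (Nat.eq_of_mul_eq_mul_right hpp.pos h4).ge
        apply hx
        rw [h3]
        exact (le_sup_right : M' ≤ M ⊔ M') hxM'
    -- the intersection is central
    have hcomm : ∀ (K : Subgroup G), IsCyclic K → ∀ a ∈ K, ∀ b ∈ K, a * b = b * a := by
      intro K hK a ha b hb
      have := hK.isMulCommutative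
      have h1 := congrArg (fun z : K => (z : G)) (this.is_comm.comm ⟨a, ha⟩ ⟨b, hb⟩)
      simpa using h1
    have hcent : ∀ z ∈ M ⊓ M', ∀ g : G, z * g = g * z := by
      intro z hz g
      have h1 : M ⊔ M' ≤ Subgroup.centralizer {z} := by
        refine sup_le ?_ ?_
        · intro m hm
          rw [Subgroup.mem_centralizer_singleton_iff]
          exact hcomm M hMc m hm z hz.1
        · intro m hm
          rw [Subgroup.mem_centralizer_singleton_iff]
          exact hcomm M' hMc' m hm z hz.2
      have h2 : g ∈ Subgroup.centralizer {z} := h1 (by rw [htop]; trivial)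
      rw [Subgroup.mem_centralizer_singleton_iff] at h2
      exact h2.symm
    have hpow : ∀ g : G, g ^ p ∈ M ⊓ M' := by
      intro g
      refine ⟨?_, ?_⟩
      · have := Subgroup.pow_index_mem M g
        rwa [hMi] at this
      · have := Subgroup.pow_index_mem M' g
        rwa [hMi'] at this
    have hquot : ∀ (K : Subgroup G) (_ : K.Normal), K.index = p → ∀ a b : G,
        (a * b)⁻¹ * (b * a) ∈ K := by
      intro K hK hKi a b
      have h1 : Nat.card (G ⧸ K) = p := by rw [← Subgroup.index_eq_card, hKi]
      have h2 : IsCyclic (G ⧸ K) := isCyclic_of_prime_card h1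
      have h3 := h2.isMulCommutative
      rw [← QuotientGroup.eq]
      exact h3.is_comm.comm (a : G ⧸ K) (b : G ⧸ K)
    -- the power map
    have hpm : ∀ a b : G, (a * b) ^ p = a ^ p * b ^ p := by
      intro a b
      set c := (a * b)⁻¹ * (b * a) with hc
      have hcM : c ∈ M ⊓ M' := ⟨hquot M hMn hMi a b, hquot M' hMn' hMi' a b⟩
      have hcc := hcent c hcM
      have hba : b * a = a * b * c := by rw [hc]; group
      have h1 := pow_mul_comm hcc hba p
      have h2 : c ^ p = 1 := by
        have h3 := hcent _ (hpow b) a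
        rw [h1] at h3
        have h4 : a * b ^ p * c ^ p = a * b ^ p * 1 := by rw [h3, mul_one]
        exact mul_left_cancel h4
      rw [mul_pow_class_two hcc hba]
      obtain ⟨m, hm⟩ : ∃ m, p = 2 * m + 1 := by
        rcases hpp.eq_two_or_odd' with h | h
        · exact absurd h hp2
        · exact h
      have h3 : p * (p - 1) / 2 = p * m := by
        rw [hm]
        have : (2 * m + 1) * (2 * m + 1 - 1) = (2 * m + 1) * m * 2 := by
          simp only [Nat.add_sub_cancel]; ring
        rw [this, Nat.mul_div_cancel _ (by norm_num)]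
      rw [h3, pow_mul, h2, one_pow, mul_one]
    let φ : G →* G := MonoidHom.mk' (fun g => g ^ p) hpm
    have hφ : ∀ g, φ g = g ^ p := fun g => rfl
    -- size of the kernel
    have hcardZ : Nat.card (M ⊓ M' : Subgroup G) ∣ p ^ k := by
      have h1 : Nat.card (M ⊓ M' : Subgroup G) ∣ p ^ (k + 1) := by
        rw [← hM]; exact Subgroup.card_dvd_of_le inf_le_left
      obtain ⟨a, ha, ha2⟩ := (Nat.dvd_prime_pow hpp).1 h1
      rw [ha2]
      apply pow_dvd_pow
      by_contra hlt
      have ha3 : a = k + 1 := by omega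
      rw [ha3, ← hM] at ha2
      have h3 : M ⊓ M' = M := Subgroup.eq_of_le_of_card_ge inf_le_left ha2.ge
      have h4 : M ≤ M' := inf_eq_left.1 h3
      exact hne (Subgroup.eq_of_le_of_card_ge h4 (by rw [hM, hM']))
    have hker : p ^ 2 ∣ Nat.card φ.ker := by
      have h1 : Nat.card φ.range ∣ p ^ k := by
        refine dvd_trans (Subgroup.card_dvd_of_le ?_) hcardZ
        rintro _ ⟨g, rfl⟩
        exact hpow g
      have h2 : Nat.card φ.ker * Nat.card φ.range = p ^ (k + 2) := by
        rw [← hcard, ← Subgroup.index_ker, Subgroup.card_mul_index]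
      obtain ⟨b, hb, hb2⟩ := (Nat.dvd_prime_pow hpp).1 h1
      obtain ⟨a, ha, ha2⟩ := (Nat.dvd_prime_pow hpp).1 (Dvd.intro _ h2)
      rw [ha2]
      apply pow_dvd_pow
      rw [hb2, ha2, ← pow_add] at h2
      have := Nat.pow_right_injective hpp.two_le h2
      omega
    -- a central element of order p in the kernel
    have hkp : IsPGroup p φ.ker := by
      intro g
      refine ⟨1, Subtype.ext ?_⟩
      have := g.2
      rw [MonoidHom.mem_ker, hφ] at this
      simpa using this
    have hnt : Nontrivial φ.ker := by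
      rw [← Finite.one_lt_card_iff_nontrivial]
      calc 1 < p ^ 2 := Nat.one_lt_pow (by norm_num) hpp.one_lt
        _ ≤ Nat.card φ.ker := Nat.le_of_dvd Nat.card_pos hker
    have hcn : Nontrivial (Subgroup.center φ.ker) := hkp.center_nontrivial
    obtain ⟨z, hz⟩ := exists_ne (1 : Subgroup.center φ.ker)
    have hzc := z.2
    rw [Subgroup.mem_center_iff] at hzc
    set z' : G := ((z : φ.ker) : G) with hz'
    have hz1 : z' ≠ 1 := fun h => hz (Subtype.ext (Subtype.ext h))
    have hzp : z' ^ p = 1 := by
      have := (z : φ.ker).2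
      rwa [MonoidHom.mem_ker, hφ] at this
    have hzord : orderOf z' = p := orderOf_eq_prime hzp hz1
    obtain ⟨y, hy, hyz⟩ : ∃ y ∈ φ.ker, y ∉ Subgroup.zpowers z' := by
      by_contra hcon
      push Not at hcon
      have h1 : Nat.card φ.ker ≤ Nat.card (Subgroup.zpowers z') := by
        have : φ.ker ≤ Subgroup.zpowers z' := hcon
        exact Nat.le_of_dvd Nat.card_pos (Subgroup.card_dvd_of_le this)
      rw [Nat.card_zpowers, hzord] at h1
      have h2 := Nat.le_of_dvd Nat.card_pos hker
      have h3 : p < p ^ 2 := by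
        have := hpp.one_lt
        nlinarith
      omega
    have hyp : y ^ p = 1 := by rwa [MonoidHom.mem_ker, hφ] at hy
    have hzy : z' * y = y * z' := by
      have h1 := hzc ⟨y, hy⟩
      have h2 := congrArg (fun w : φ.ker => (w : G)) h1
      simpa using h2.symm
    obtain ⟨i, j, hij, h⟩ := hr z' y hzp hyp hzy
    by_cases hj : p ∣ j
    · obtain ⟨j', rfl⟩ := hj
      rw [pow_mul, hyp, one_pow, mul_one] at h
      have h1 := orderOf_dvd_of_pow_eq_one h
      rw [hzord] at h1
      exact hij ⟨h1, Dvd.intro _ rfl⟩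
    · apply hyz
      have hcop : Nat.Coprime j p := ((Nat.Prime.coprime_iff_not_dvd hpp).2 hj).symm
      obtain ⟨m, -, hm⟩ := Nat.exists_mul_mod_eq_one_of_coprime hcop hpp.one_lt
      have h1 : (y ^ j) ^ m = y := by
        rw [← pow_mul]
        conv_lhs => rw [← Nat.div_add_mod (j * m) p]
        rw [pow_add, pow_mul, hyp, one_pow, one_mul, hm, pow_one]
      have h2 : y ^ j = (z' ^ i)⁻¹ := eq_inv_of_mul_eq_one_right h
      rw [← h1, h2]
      exact Subgroup.pow_mem _ (Subgroup.inv_mem _ (Subgroup.pow_mem _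
        (Subgroup.mem_zpowers z') _)) _

end Pool.Agent.H89.CF
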