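import Mathlib
import Pool.Agent.H89.CF.Cyclic
import Pool.Agent.RFA.Final

/-!
# Residually finite `p`-groups all of whose locally finite subgroups are cyclic
-/

set_option autoImplicit false

namespace Pool.Agent.H89.CF

/-- every finitely generated subgroup of `H` is finite -/
def LocFin {Γ : Type} [Group Γ] (H : Subgroup Γ) : Prop :=
  ∀ K : Subgroup Γ, K ≤ H → K.FG → Finite K

/-- a finitely generated solvable torsion group is finite -/
theorem finite_of_solvable (G : Type) [Group G] [Group.IsSolvable G] [hfg : Group.FG G]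
    (ht : ∀ g : G, IsOfFinOrder g) : Finite G := by
  have key : ∀ n : ℕ, (derivedSeries G n).FiniteIndex := by
    intro n
    induction n with
    | zero => rw [derivedSeries_zero]; infer_instance
    | succ n ih =>
      rw [derivedSeries_succ]
      set K := derivedSeries G n with hK
      have hKfg : Group.FG K := inferInstance
      have hfgA : Group.FG (Abelianization K) :=
        Group.fg_of_surjective (f := Abelianization.of) (QuotientGroup.mk'_surjective _)
      have hfin : Finite (Abelianization K) := by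
        apply CommGroup.finite_of_fg_isMulTorsion
        intro x
        obtain ⟨y, rfl⟩ := QuotientGroup.mk_surjective x
        have h1 : IsOfFinOrder y := by
          have := ht (y : G)
          rwa [← Submonoid.isOfFinOrder_coe (H := K.toSubmonoid)]
        exact (QuotientGroup.mk' (commutator K)).isOfFinOrder h1
      have h2 : ((commutator K).map K.subtype) = ⁅K, K⁆ := by
        rw [commutator_def, Subgroup.map_commutator, ← MonoidHom.range_eq_map,
          Subgroup.range_subtype]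
      have h3 : (commutator K).index ≠ 0 := by
        have : Finite (K ⧸ commutator K) := hfin
        exact Subgroup.index_ne_zero_of_finite
      refine ⟨?_⟩
      rw [← h2, Subgroup.index_map_subtype]
      exact mul_ne_zero h3 ih.index_ne_zero
  obtain ⟨n, hn⟩ := (Group.isSolvable_def G).1 inferInstance
  have := key n
  rw [hn] at this
  have h1 := this.index_ne_zero
  rw [Subgroup.index_bot] at h1
  exact (Nat.card_ne_zero.1 h1).2

section

variable {p : ℕ} [hpf : Fact p.Prime] {Γ : Type} [Group Γ]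

theorem finite_cyclic (hp2 : p ≠ 2) (htors : ∀ g : Γ, ∃ k : ℕ, g ^ p ^ k = 1)
    (hr : NoRankTwo p Γ) (H : Subgroup Γ) [Finite H] : IsCyclic H := by
  have hP : IsPGroup p H := by
    intro g
    obtain ⟨k, hk⟩ := htors g
    exact ⟨k, Subtype.ext (by simpa using hk)⟩
  obtain ⟨n, hn⟩ := IsPGroup.iff_card.1 hP
  exact isCyclic_of_noRankTwo hp2 n H hn (hr.subgroup H)

theorem locFin_cyclic (hp2 : p ≠ 2) (htors : ∀ g : Γ, ∃ k : ℕ, g ^ p ^ k = 1)
    (hsep : ∀ g : Γ, g ≠ 1 → ∃ N : Subgroup Γ, N.Normal ∧ N.index ≠ 0 ∧ g ∉ N)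
    (hr : NoRankTwo p Γ) (H : Subgroup Γ) (hH : LocFin H) : Finite H ∧ IsCyclic H := by
  classical
  have hab : ∀ x ∈ H, ∀ y ∈ H, x * y = y * x := by
    intro x hx y hy
    set K := Subgroup.closure ({x, y} : Set Γ) with hK
    have hKH : K ≤ H := by
      rw [hK, Subgroup.closure_le]
      intro z hz
      rcases hz with rfl | hz
      · exact hx
      · rw [Set.mem_singleton_iff] at hz
        rw [hz]; exact hy
    have hfg : K.FG := ⟨{x, y}, by rw [hK]; simp⟩
    have hfin := hH K hKH hfg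
    have hc := (finite_cyclic hp2 htors hr K).isMulCommutative
    have hxK : x ∈ K := Subgroup.subset_closure (by simp)
    have hyK : y ∈ K := Subgroup.subset_closure (by simp)
    have h1 := congrArg (fun z : K => (z : Γ)) (hc.is_comm.comm ⟨x, hxK⟩ ⟨y, hyK⟩)
    simpa using h1
  have hfin : Finite H :=
    Set.Finite.to_subtype (Pool.Agent.RFA.abelian_finite hpf.out htors hsep hr H hab)
  exact ⟨hfin, finite_cyclic hp2 htors hr H⟩

theorem solvable_locFin (htors : ∀ g : Γ, ∃ k : ℕ, g ^ p ^ k = 1) (H : Subgroup Γ)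
    [Group.IsSolvable H] : LocFin H := by
  intro K hKH hfg
  have h1 : Group.FG K := (Group.fg_iff_subgroup_fg K).2 hfg
  have h2 : Group.IsSolvable K :=
    Group.isSolvable_of_isSolvable_injective (f := Subgroup.inclusion hKH)
      (Subgroup.inclusion_injective hKH)
  apply finite_of_solvable K
  intro g
  obtain ⟨k, hk⟩ := htors g
  rw [isOfFinOrder_iff_pow_eq_one]
  exact ⟨p ^ k, pow_pos hpf.out.pos k, Subtype.ext (by simpa using hk)⟩

/-- centralizers of nontrivial elements are finite and cyclic -/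
theorem centralizer_cyclic (hp2 : p ≠ 2) (htors : ∀ g : Γ, ∃ k : ℕ, g ^ p ^ k = 1)
    (hsep : ∀ g : Γ, g ≠ 1 → ∃ N : Subgroup Γ, N.Normal ∧ N.index ≠ 0 ∧ g ∉ N)
    (hr : NoRankTwo p Γ) (g : Γ) (hg : g ≠ 1) :
    Finite (Subgroup.centralizer ({g} : Set Γ)) ∧ IsCyclic (Subgroup.centralizer ({g} : Set Γ)) := by
  obtain ⟨a, ha1, ha2⟩ := Pool.Agent.RFA.FinalAux.exists_pow_order htors g hg
  set z := g ^ a with hz
  obtain ⟨N, hN, hNi, hzN⟩ := hsep z ha1
  have hC : ∀ y ∈ Subgroup.centralizer ({g} : Set Γ), z * y = y * z := by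
    intro y hy
    rw [Subgroup.mem_centralizer_singleton_iff] at hy
    have h1 : Commute y g := hy
    exact (h1.pow_right a).symm.eq
  -- the centralizer meets `N` trivially
  have hCN : ∀ y ∈ Subgroup.centralizer ({g} : Set Γ), y ∈ N → y = 1 := by
    intro y hy hyN
    by_contra hy1
    obtain ⟨b, hb1, hb2⟩ := Pool.Agent.RFA.FinalAux.exists_pow_order htors y hy1
    have hyC := Subgroup.pow_mem _ hy b
    have hybN := N.pow_mem hyN b
    obtain ⟨i, j, hij, h⟩ := hr z (y ^ b) ha2 hb2 (hC _ hyC)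
    have hcop : ∀ i : ℕ, ¬ p ∣ i → ∃ m, i * m % p = 1 := by
      intro i hi
      obtain ⟨m, -, hm⟩ := Nat.exists_mul_mod_eq_one_of_coprime
        ((Nat.Prime.coprime_iff_not_dvd hpf.out).2 hi).symm hpf.out.one_lt
      exact ⟨m, hm⟩
    have hgen : ∀ (w : Γ) (i m : ℕ), w ^ p = 1 → i * m % p = 1 → (w ^ i) ^ m = w := by
      intro w i m hw hm
      rw [← pow_mul]
      conv_lhs => rw [← Nat.div_add_mod (i * m) p]
      rw [pow_add, pow_mul, hw, one_pow, one_mul, hm, pow_one]
    by_cases hi : p ∣ i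
    · have hj : ¬ p ∣ j := fun hj => hij ⟨hi, hj⟩
      obtain ⟨i', rfl⟩ := hi
      rw [pow_mul, ha2, one_pow, one_mul] at h
      obtain ⟨m, hm⟩ := hcop j hj
      have h1 := hgen (y ^ b) j m hb2 hm
      rw [h, one_pow] at h1
      exact hb1 h1.symm
    · obtain ⟨m, hm⟩ := hcop i hi
      have h1 := hgen z i m ha2 hm
      apply hzN
      rw [← h1, eq_inv_of_mul_eq_one_left h]
      exact N.pow_mem (N.inv_mem (N.pow_mem hybN j)) m
  have hfin : Finite (Subgroup.centralizer ({g} : Set Γ)) := by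
    have hf : N.FiniteIndex := ⟨hNi⟩
    have hfq : Finite (Γ ⧸ N) := Subgroup.finite_quotient_of_finiteIndex
    refine Finite.of_injective
      (fun y : Subgroup.centralizer ({g} : Set Γ) => ((y : Γ) : Γ ⧸ N)) ?_
    intro y y' hyy
    have h1 : (y : Γ)⁻¹ * y' ∈ N := QuotientGroup.eq.1 hyy
    have h2 := hCN _ ((Subgroup.centralizer ({g} : Set Γ)).mul_mem
      ((Subgroup.centralizer ({g} : Set Γ)).inv_mem y.2) y'.2) h1
    exact Subtype.ext (inv_mul_eq_one.1 h2)
  exact ⟨hfin, finite_cyclic hp2 htors hr _⟩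

end

/-- in a cyclic group of `p`-power order, nontrivial elements of order `p` generate the same
subgroup -/
theorem mem_zpowers_of_order_p {p : ℕ} [hpf : Fact p.Prime] {Γ : Type} [Group Γ] {w z y : Γ}
    {k : ℕ} (hk : w ^ p ^ k = 1) (hz : z ∈ Subgroup.zpowers w) (hy : y ∈ Subgroup.zpowers w)
    (hzp : z ^ p = 1) (hyp : y ^ p = 1) (hy1 : y ≠ 1) : z ∈ Subgroup.zpowers y := by
  have hw1 : w ≠ 1 := by
    rintro rfl
    rw [Subgroup.zpowers_one_eq_bot, Subgroup.mem_bot] at hy
    exact hy1 hy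
  -- the exact order of `w`
  obtain ⟨l, hl, hlo⟩ := (Nat.dvd_prime_pow hpf.out).1 (orderOf_dvd_of_pow_eq_one hk)
  have hl0 : l ≠ 0 := by
    rintro rfl
    rw [pow_zero, orderOf_eq_one_iff] at hlo
    exact hw1 hlo
  obtain ⟨l', rfl⟩ := Nat.exists_eq_succ_of_ne_zero hl0
  set v := w ^ p ^ l' with hv
  -- every element of order dividing `p` is a power of `v`
  have key : ∀ u ∈ Subgroup.zpowers w, u ^ p = 1 → ∃ m : ℤ, u = v ^ m := by
    intro u hu hup
    obtain ⟨m, rfl⟩ := Subgroup.mem_zpowers_iff.1 hu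
    have h1 : (orderOf w : ℤ) ∣ m * p := by
      rw [orderOf_dvd_iff_zpow_eq_one, zpow_mul, zpow_natCast]
      exact hup
    rw [hlo] at h1
    push_cast at h1
    rw [pow_succ] at h1
    have hp0 : (p : ℤ) ≠ 0 := by exact_mod_cast hpf.out.ne_zero
    obtain ⟨m', hm'⟩ := (mul_dvd_mul_iff_right hp0).1 h1
    refine ⟨m', ?_⟩
    rw [hv, hm', zpow_mul]
    congr 1
    rw [← zpow_natCast]
    push_cast
    rfl
  have hvp : v ^ p = 1 := by
    rw [hv, ← pow_mul, ← pow_succ, ← hlo]
    exact pow_orderOf_eq_one w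
  obtain ⟨a, rfl⟩ := key z hz hzp
  obtain ⟨b, rfl⟩ := key y hy hyp
  have hb : ¬ (p : ℤ) ∣ b := by
    rintro ⟨c, rfl⟩
    apply hy1
    rw [zpow_mul, zpow_natCast, hvp, one_zpow]
  have hcop : IsCoprime (p : ℤ) b :=
    (Prime.coprime_iff_not_dvd (Nat.prime_iff_prime_int.1 hpf.out)).2 hb
  obtain ⟨s, t, hst⟩ := hcop
  refine Subgroup.mem_zpowers_iff.2 ⟨t * a, ?_⟩
  have h2 : b * (t * a) = a + p * (- (s * a)) := by
    linear_combination a * hst
  rw [← zpow_mul, h2, zpow_add, zpow_mul v (p : ℤ), zpow_natCast, hvp, one_zpow, mul_one]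

/-- In a torsion residually finite group, a subgroup all of whose finitely generated subgroups are
cyclic is finite and cyclic. -/
theorem cyclic_of_locally {p : ℕ} [hpf : Fact p.Prime] {Γ : Type} [Group Γ]
    (htors : ∀ g : Γ, ∃ k : ℕ, g ^ p ^ k = 1)
    (hsep : ∀ g : Γ, g ≠ 1 → ∃ N : Subgroup Γ, N.Normal ∧ N.index ≠ 0 ∧ g ∉ N)
    (H : Subgroup Γ) (hH : ∀ K : Subgroup Γ, K ≤ H → K.FG → IsCyclic K) : IsCyclic H := by
  classical
  -- two elements of `H` lie in a common cyclic group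
  have hpair : ∀ x ∈ H, ∀ y ∈ H, ∃ w ∈ H, x ∈ Subgroup.zpowers w ∧ y ∈ Subgroup.zpowers w := by
    intro x hx y hy
    set K := Subgroup.closure ({x, y} : Set Γ) with hK
    have hKH : K ≤ H := by
      rw [hK, Subgroup.closure_le]
      intro z hz
      rcases hz with rfl | hz
      · exact hx
      · rw [Set.mem_singleton_iff] at hz
        rw [hz]; exact hy
    have hfg : K.FG := ⟨{x, y}, by rw [hK]; simp⟩
    obtain ⟨w, hw⟩ := hH K hKH hfg
    have hxK : x ∈ K := Subgroup.subset_closure (by simp)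
    have hyK : y ∈ K := Subgroup.subset_closure (by simp)
    refine ⟨w, hKH w.2, ?_, ?_⟩
    · obtain ⟨n, hn⟩ := Subgroup.mem_zpowers_iff.1 (hw ⟨x, hxK⟩)
      refine Subgroup.mem_zpowers_iff.2 ⟨n, ?_⟩
      have := congrArg (fun z : K => (z : Γ)) hn
      simpa using this
    · obtain ⟨n, hn⟩ := Subgroup.mem_zpowers_iff.1 (hw ⟨y, hyK⟩)
      refine Subgroup.mem_zpowers_iff.2 ⟨n, ?_⟩
      have := congrArg (fun z : K => (z : Γ)) hn
      simpa using this
  by_cases htriv : ∀ x ∈ H, x = 1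
  · have : H = ⊥ := (Subgroup.eq_bot_iff_forall H).2 htriv
    rw [this]; infer_instance
  push Not at htriv
  obtain ⟨x0, hx0, hx01⟩ := htriv
  obtain ⟨a, ha1, ha2⟩ := Pool.Agent.RFA.FinalAux.exists_pow_order htors x0 hx01
  set z := x0 ^ a with hz
  have hzH : z ∈ H := H.pow_mem hx0 a
  obtain ⟨N, hN, hNi, hzN⟩ := hsep z ha1
  -- `H` meets `N` trivially
  have hHN : ∀ y ∈ H, y ∈ N → y = 1 := by
    intro y hy hyN
    by_contra hy1
    obtain ⟨b, hb1, hb2⟩ := Pool.Agent.RFA.FinalAux.exists_pow_order htors y hy1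
    obtain ⟨w, hw, hzw, hyw⟩ := hpair z hzH (y ^ b) (H.pow_mem hy b)
    obtain ⟨k, hk⟩ := htors w
    have h1 : z ∈ Subgroup.zpowers (y ^ b) := mem_zpowers_of_order_p hk hzw hyw ha2 hb2 hb1
    apply hzN
    obtain ⟨m, hm⟩ := Subgroup.mem_zpowers_iff.1 h1
    rw [← hm]
    exact N.zpow_mem (N.pow_mem hyN b) m
  have hfin : Finite H := by
    have hf : N.FiniteIndex := ⟨hNi⟩
    have hfq : Finite (Γ ⧸ N) := Subgroup.finite_quotient_of_finiteIndex
    refine Finite.of_injective (fun y : H => ((y : Γ) : Γ ⧸ N)) ?_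
    intro y y' hyy
    have h1 : (y : Γ)⁻¹ * y' ∈ N := QuotientGroup.eq.1 hyy
    have h2 := hHN _ (H.mul_mem (H.inv_mem y.2) y'.2) h1
    exact Subtype.ext (inv_mul_eq_one.1 h2)
  have hfg : H.FG := (Group.fg_iff_subgroup_fg H).1 (Group.fg_of_finite)
  exact hH H le_rfl hfg

end Pool.Agent.H89.CF
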